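import Mathlib

namespace Pool.Agent.SqCount

open Finset

/-- the completely multiplicative function `n ↦ n ^ (-η)` -/
noncomputable def powHom (η : ℝ) : ℕ →* ℝ where
  toFun n := (n : ℝ) ^ (-η)
  map_one' := by simp
  map_mul' a b := by
    push_cast
    exact Real.mul_rpow (Nat.cast_nonneg a) (Nat.cast_nonneg b)

theorem powHom_apply (η : ℝ) (n : ℕ) : powHom η n = (n : ℝ) ^ (-η) := rfl

theorem powHom_nonneg (η : ℝ) (n : ℕ) : 0 ≤ powHom η n := by
  rw [powHom_apply]; positivity

theorem powHom_prime_lt (η : ℝ) (h : 0 < η) {p : ℕ} (hp : p.Prime) : ‖powHom η p‖ < 1 := by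
  rw [Real.norm_of_nonneg (powHom_nonneg η p), powHom_apply]
  apply Real.rpow_lt_one_of_one_lt_of_neg
  · exact_mod_cast hp.one_lt
  · linarith

/-- Rankin: the count of `n ≤ M` all of whose prime factors divide `r`. -/
theorem rankin_prod (η : ℝ) (h : 0 < η) (r M : ℕ) :
    (((Icc 1 M).filter (fun n => n.primeFactors ⊆ r.primeFactors)).card : ℝ) ≤
      (M : ℝ) ^ η * ∏ p ∈ r.primeFactors, (1 - powHom η p)⁻¹ := by
  classical
  set T := (Icc 1 M).filter (fun n => n.primeFactors ⊆ r.primeFactors) with hT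
  obtain ⟨hs, hS⟩ := EulerProduct.summable_and_hasSum_factoredNumbers_prod_filter_prime_geometric
    (f := powHom η) (fun {p} hp => powHom_prime_lt η h hp) r.primeFactors
  have hfil : r.primeFactors.filter (fun p => p.Prime) = r.primeFactors := by
    apply Finset.filter_true_of_mem
    intro p hp; exact Nat.prime_of_mem_primeFactors hp
  rw [hfil] at hS
  have hmem : ∀ n ∈ T, n ∈ Nat.factoredNumbers r.primeFactors := by
    intro n hn
    rw [hT, mem_filter, mem_Icc] at hn
    exact Nat.mem_factoredNumbers_of_primeFactors_subset (by omega) hn.2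
  have h1 : ∑ n ∈ T, powHom η n ≤ ∏ p ∈ r.primeFactors, (1 - powHom η p)⁻¹ := by
    have h2 : ∑ n ∈ T, powHom η n =
        ∑ n ∈ T.attach.image (fun n => (⟨n.1, hmem n.1 n.2⟩ : Nat.factoredNumbers r.primeFactors)),
          powHom η n := by
      rw [Finset.sum_image]
      · rw [← Finset.sum_attach]
      · intro a _ b _ hab
        simp only [Subtype.mk.injEq] at hab
        exact Subtype.ext hab
    rw [h2]
    exact sum_le_hasSum _ (fun n _ => powHom_nonneg η n) hS
  have h3 : (T.card : ℝ) ≤ (M : ℝ) ^ η * ∑ n ∈ T, powHom η n := by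
    rw [Finset.mul_sum, Finset.card_eq_sum_ones]
    push_cast
    apply Finset.sum_le_sum
    intro n hn
    rw [hT, mem_filter, mem_Icc] at hn
    rw [powHom_apply, Real.rpow_neg (Nat.cast_nonneg n)]
    have hn0 : (0 : ℝ) < (n : ℝ) ^ η := Real.rpow_pos_of_pos (by exact_mod_cast hn.1.1) η
    rw [← div_eq_mul_inv, le_div_iff₀ hn0, one_mul]
    exact Real.rpow_le_rpow (Nat.cast_nonneg n) (by exact_mod_cast hn.1.2) h.le
  refine h3.trans ?_
  exact mul_le_mul_of_nonneg_left h1 (by positivity)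

theorem rankin (η : ℝ) (h : 0 < η) : ∃ C : ℝ, 0 ≤ C ∧ ∀ r M : ℕ, 1 ≤ r →
    (((Icc 1 M).filter (fun n => n.primeFactors ⊆ r.primeFactors)).card : ℝ) ≤
      C * (M : ℝ) ^ η * (r : ℝ) ^ η := by
  classical
  set D : ℝ := (1 - powHom η 2)⁻¹ with hD
  have h2lt : powHom η 2 < 1 := by
    have := powHom_prime_lt η h Nat.prime_two
    rwa [Real.norm_of_nonneg (powHom_nonneg η 2)] at this
  have hD1 : 1 ≤ D := by
    rw [hD]
    apply (one_le_inv₀ (by linarith)).2
    linarith [powHom_nonneg η 2]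
  set T : ℕ := ⌈(2 : ℝ) ^ (1 / η)⌉₊ with hT
  refine ⟨D ^ T, by positivity, ?_⟩
  intro r M hr
  refine (rankin_prod η h r M).trans ?_
  have key : ∏ p ∈ r.primeFactors, (1 - powHom η p)⁻¹ ≤ D ^ T * (r : ℝ) ^ η := by
    have e1 : ∏ p ∈ r.primeFactors, (1 - powHom η p)⁻¹ ≤
        ∏ p ∈ r.primeFactors, ((if p < T then D else 1) * (p : ℝ) ^ η) := by
      apply Finset.prod_le_prod
      · intro p hp
        have hp' := Nat.prime_of_mem_primeFactors hp
        have := powHom_prime_lt η h hp'
        rw [Real.norm_of_nonneg (powHom_nonneg η p)] at this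
        have : 0 < 1 - powHom η p := by linarith
        positivity
      · intro p hp
        have hp' := Nat.prime_of_mem_primeFactors hp
        have hlt := powHom_prime_lt η h hp'
        rw [Real.norm_of_nonneg (powHom_nonneg η p)] at hlt
        have hpos : 0 < 1 - powHom η p := by linarith
        have hp1 : (1 : ℝ) ≤ (p : ℝ) ^ η :=
          Real.one_le_rpow (by exact_mod_cast hp'.one_lt.le) h.le
        have hle : powHom η p ≤ powHom η 2 := by
          rw [powHom_apply, powHom_apply]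
          apply Real.rpow_le_rpow_of_nonpos (by norm_num) (by exact_mod_cast hp'.two_le)
          linarith
        split_ifs with hpT
        · have : (1 - powHom η p)⁻¹ ≤ D := by
            rw [hD]
            apply inv_anti₀ (by linarith) (by linarith)
          nlinarith
        · rw [one_mul]
          have hpT' : (2 : ℝ) ^ (1 / η) ≤ p := by
            have : T ≤ p := not_lt.1 hpT
            exact (Nat.le_ceil _).trans (by exact_mod_cast this)
          have h2 : (2 : ℝ) ≤ (p : ℝ) ^ η := by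
            have := Real.rpow_le_rpow (by positivity) hpT' h.le
            rwa [← Real.rpow_mul (by norm_num), one_div, inv_mul_cancel₀ h.ne', Real.rpow_one] at this
          have h3 : powHom η p ≤ 1 / 2 := by
            rw [powHom_apply, Real.rpow_neg (Nat.cast_nonneg p), ← one_div]
            exact one_div_le_one_div_of_le (by norm_num) h2
          have h4 : (1 - powHom η p)⁻¹ ≤ 2 := by
            rw [inv_le_comm₀ hpos (by norm_num)]
            linarith
          linarith
    refine e1.trans ?_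
    rw [Finset.prod_mul_distrib]
    have e2 : ∏ p ∈ r.primeFactors, (if p < T then D else 1) ≤ D ^ T := by
      rw [← Finset.prod_filter, Finset.prod_const]
      apply pow_le_pow_right₀ hD1
      calc (r.primeFactors.filter (fun p => p < T)).card ≤ (Finset.range T).card := by
            apply Finset.card_le_card
            intro p hp
            rw [mem_filter] at hp
            exact Finset.mem_range.2 hp.2
        _ = T := Finset.card_range T
    have e3 : ∏ p ∈ r.primeFactors, (p : ℝ) ^ η ≤ (r : ℝ) ^ η := by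
      rw [Real.finsetProd_rpow _ _ (fun p _ => Nat.cast_nonneg p)]
      apply Real.rpow_le_rpow (Finset.prod_nonneg (fun p _ => Nat.cast_nonneg p)) _ h.le
      have h5 : ∏ p ∈ r.primeFactors, p ≤ r := Nat.le_of_dvd hr (Nat.prod_primeFactors_dvd r)
      have h6 : ((∏ p ∈ r.primeFactors, p : ℕ) : ℝ) ≤ r := by exact_mod_cast h5
      rwa [Nat.cast_prod] at h6
    apply mul_le_mul e2 e3
    · exact Finset.prod_nonneg (fun p _ => by positivity)
    · positivity
  calc (M : ℝ) ^ η * ∏ p ∈ r.primeFactors, (1 - powHom η p)⁻¹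
      ≤ (M : ℝ) ^ η * (D ^ T * (r : ℝ) ^ η) := mul_le_mul_of_nonneg_left key (by positivity)
    _ = D ^ T * (M : ℝ) ^ η * (r : ℝ) ^ η := by ring

/-- the count of `n ≤ M` with radical at most `R`. -/
theorem radical_count (η : ℝ) (h : 0 < η) : ∃ C : ℝ, 0 ≤ C ∧ ∀ R M : ℕ,
    (((Icc 1 M).filter (fun n => ∏ p ∈ n.primeFactors, p ≤ R)).card : ℝ) ≤
      C * (M : ℝ) ^ η * ((R : ℝ) ^ η * R) := by
  classical
  obtain ⟨C, hC0, hC⟩ := rankin η h
  refine ⟨C, hC0, ?_⟩
  intro R M
  have hsub : (Icc 1 M).filter (fun n => ∏ p ∈ n.primeFactors, p ≤ R) ⊆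
      (Icc 1 R).biUnion (fun r => (Icc 1 M).filter (fun n => n.primeFactors ⊆ r.primeFactors)) := by
    intro n hn
    rw [mem_filter] at hn
    rw [mem_biUnion]
    refine ⟨∏ p ∈ n.primeFactors, p, ?_, ?_⟩
    · rw [mem_Icc]
      refine ⟨?_, hn.2⟩
      exact Nat.one_le_iff_ne_zero.2 (Finset.prod_pos (fun p hp =>
        (Nat.prime_of_mem_primeFactors hp).pos)).ne'
    · rw [mem_filter]
      refine ⟨hn.1, ?_⟩
      rw [Nat.primeFactors_prod]
      intro p hp; exact Nat.prime_of_mem_primeFactors hp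
  calc (((Icc 1 M).filter (fun n => ∏ p ∈ n.primeFactors, p ≤ R)).card : ℝ)
      ≤ (((Icc 1 R).biUnion (fun r =>
          (Icc 1 M).filter (fun n => n.primeFactors ⊆ r.primeFactors))).card : ℝ) := by
        exact_mod_cast Finset.card_le_card hsub
    _ ≤ ((∑ r ∈ Icc 1 R, ((Icc 1 M).filter
          (fun n => n.primeFactors ⊆ r.primeFactors)).card : ℕ) : ℝ) := by
        exact_mod_cast Finset.card_biUnion_le
    _ = ∑ r ∈ Icc 1 R, (((Icc 1 M).filter
          (fun n => n.primeFactors ⊆ r.primeFactors)).card : ℝ) := by push_cast; rfl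
    _ ≤ ∑ r ∈ Icc 1 R, C * (M : ℝ) ^ η * (R : ℝ) ^ η := by
        apply Finset.sum_le_sum
        intro r hr
        rw [mem_Icc] at hr
        refine (hC r M hr.1).trans ?_
        apply mul_le_mul_of_nonneg_left _ (by positivity)
        exact Real.rpow_le_rpow (Nat.cast_nonneg r) (by exact_mod_cast hr.2) h.le
    _ = C * (M : ℝ) ^ η * ((R : ℝ) ^ η * R) := by
        rw [Finset.sum_const, Nat.card_Icc, nsmul_eq_mul]
        simp only [Nat.add_sub_cancel]
        ring

/-- product of the prime factors of `n` exceeding `K` -/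
def big (K n : ℕ) : ℕ := ∏ p ∈ n.primeFactors.filter (fun p => K < p), p

theorem rad_le (K n : ℕ) : ∏ p ∈ n.primeFactors, p ≤ K.factorial * big K n := by
  classical
  rw [← Finset.prod_filter_mul_prod_filter_not n.primeFactors (fun p => K < p), mul_comm]
  apply Nat.mul_le_mul_right
  have hfac : ∏ i ∈ Icc 1 K, i = K.factorial := by
    induction K with
    | zero => simp
    | succ k ih => rw [Finset.prod_Icc_succ_top (by omega), ih, Nat.factorial_succ, mul_comm]
  rw [← hfac]
  apply Finset.prod_le_prod_of_subset_of_one_le'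
  · intro p hp
    rw [mem_filter] at hp
    rw [mem_Icc]
    exact ⟨(Nat.prime_of_mem_primeFactors hp.1).pos, by omega⟩
  · intro i hi _
    exact (mem_Icc.1 hi).1

/-- if `y` has a smaller `K`-equivalent then the product of the big parts is less than `y` -/
theorem prod_big_le (K x y : ℕ) (hx : 1 ≤ x) (hxy : x < y)
    (h : ∀ j, j ≤ K → ∀ p : ℕ, p.Prime → (p ∣ x + j ↔ p ∣ y + j)) :
    ∏ j ∈ range (K + 1), big K (y + j) ≤ y := by
  classical
  have hdisj : (↑(range (K + 1)) : Set ℕ).PairwiseDisjoint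
      (fun j => (y + j).primeFactors.filter (fun p => K < p)) := by
    intro i hi j hj hij
    simp only [coe_range, Set.mem_Iio] at hi hj
    rw [Function.onFun, Finset.disjoint_left]
    intro p hp hq
    rw [mem_filter] at hp hq
    have h1 := Nat.dvd_of_mem_primeFactors hp.1
    have h2 := Nat.dvd_of_mem_primeFactors hq.1
    rcases lt_or_gt_of_ne hij with hlt | hlt
    · have h3 : p ∣ (y + j) - (y + i) := Nat.dvd_sub h2 h1
      have h4 : (y + j) - (y + i) = j - i := by omega
      rw [h4] at h3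
      have := Nat.le_of_dvd (by omega) h3
      omega
    · have h3 : p ∣ (y + i) - (y + j) := Nat.dvd_sub h1 h2
      have h4 : (y + i) - (y + j) = i - j := by omega
      rw [h4] at h3
      have := Nat.le_of_dvd (by omega) h3
      omega
  have e1 : ∏ j ∈ range (K + 1), big K (y + j) =
      ∏ p ∈ (range (K + 1)).biUnion (fun j => (y + j).primeFactors.filter (fun p => K < p)), p := by
    rw [Finset.prod_biUnion hdisj]
    rfl
  rw [e1]
  have e2 : ∏ p ∈ (range (K + 1)).biUnion
      (fun j => (y + j).primeFactors.filter (fun p => K < p)), p ∣ y - x := by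
    apply Finset.prod_primes_dvd
    · intro p hp
      rw [mem_biUnion] at hp
      obtain ⟨j, _, hj⟩ := hp
      rw [mem_filter] at hj
      exact (Nat.prime_of_mem_primeFactors hj.1).prime
    · intro p hp
      rw [mem_biUnion] at hp
      obtain ⟨j, hjK, hj⟩ := hp
      rw [mem_filter] at hj
      have hpp := Nat.prime_of_mem_primeFactors hj.1
      have hd := Nat.dvd_of_mem_primeFactors hj.1
      have hd' := (h j (by rw [Finset.mem_range] at hjK; omega) p hpp).2 hd
      have h3 : p ∣ (y + j) - (x + j) := Nat.dvd_sub hd hd'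
      have h4 : (y + j) - (x + j) = y - x := by omega
      rwa [h4] at h3
  have := Nat.le_of_dvd (by omega) e2
  omega

theorem exists_small (K x y : ℕ) (hx : 1 ≤ x) (hxy : x < y)
    (h : ∀ j, j ≤ K → ∀ p : ℕ, p.Prime → (p ∣ x + j ↔ p ∣ y + j)) :
    ∃ j ∈ range (K + 1), (big K (y + j)) ^ (K + 1) ≤ y := by
  classical
  by_contra hcon
  push Not at hcon
  have hp := prod_big_le K x y hx hxy h
  have h1 : ∏ j ∈ range (K + 1), y < ∏ j ∈ range (K + 1), (big K (y + j)) ^ (K + 1) := by
    apply Finset.prod_lt_prod_of_nonempty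
    · intro i _; omega
    · intro i hi; exact hcon i hi
    · exact ⟨0, by simp⟩
  rw [Finset.prod_pow, Finset.prod_const, Finset.card_range] at h1
  have h2 := Nat.pow_le_pow_left hp (K + 1)
  omega

open scoped Classical in
theorem count (eps : ℝ) (h : 0 < eps) : ∃ K : ℕ, ∃ C : ℝ, ∀ N : ℕ,
    (((Icc 1 N).filter (fun y => ∃ x, 1 ≤ x ∧ x < y ∧ ∀ j, j ≤ K →
      ∀ p : ℕ, p.Prime → (p ∣ x + j ↔ p ∣ y + j))).card : ℝ) ≤ C * (N : ℝ) ^ eps := by
  set η : ℝ := eps / 2 with hη
  have hη0 : 0 < η := by positivity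
  obtain ⟨C, hC0, hC⟩ := radical_count η hη0
  obtain ⟨K, hK⟩ := exists_nat_gt ((1 + η) / η)
  refine ⟨K, (K + 1 : ℝ) * (C * ((K : ℝ) + 1) ^ η * ((K.factorial : ℝ) ^ η * K.factorial)), ?_⟩
  intro N
  rcases Nat.eq_zero_or_pos N with hN | hN
  · subst hN
    simp only [Nat.cast_zero]
    rw [Real.zero_rpow h.ne']
    simp
  have hN1 : (1 : ℝ) ≤ N := by exact_mod_cast hN
  set t : ℝ := (N : ℝ) ^ ((1 : ℝ) / (K + 1)) with ht
  have ht0 : 0 ≤ t := by positivity
  set R : ℕ := K.factorial * ⌊t⌋₊ with hR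
  -- the inclusion
  have hsub : (Icc 1 N).filter (fun y => ∃ x, 1 ≤ x ∧ x < y ∧ ∀ j, j ≤ K →
      ∀ p : ℕ, p.Prime → (p ∣ x + j ↔ p ∣ y + j)) ⊆
      (range (K + 1)).biUnion (fun j => (Icc 1 N).filter
        (fun y => ∏ p ∈ (y + j).primeFactors, p ≤ R)) := by
    intro y hy
    rw [mem_filter, mem_Icc] at hy
    obtain ⟨⟨hy1, hyN⟩, x, hx1, hxy, hall⟩ := hy
    obtain ⟨j, hj, hjle⟩ := exists_small K x y hx1 hxy hall
    rw [mem_biUnion]
    refine ⟨j, hj, ?_⟩
    rw [mem_filter, mem_Icc]
    refine ⟨⟨hy1, hyN⟩, ?_⟩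
    refine (rad_le K (y + j)).trans ?_
    rw [hR]
    apply Nat.mul_le_mul_left
    apply Nat.le_floor
    rw [ht]
    have h1 : ((big K (y + j) : ℝ)) ^ (K + 1) ≤ N := by
      have : (big K (y + j)) ^ (K + 1) ≤ N := hjle.trans hyN
      exact_mod_cast this
    have h2 : (big K (y + j) : ℝ) = (((big K (y + j) : ℝ)) ^ (K + 1)) ^ ((1 : ℝ) / (K + 1)) := by
      rw [← Real.rpow_natCast, ← Real.rpow_mul (Nat.cast_nonneg _)]
      push_cast
      rw [mul_one_div_cancel (by positivity), Real.rpow_one]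
    rw [h2]
    exact Real.rpow_le_rpow (by positivity) h1 (by positivity)
  have hcard : ∀ j ∈ range (K + 1), (((Icc 1 N).filter
        (fun y => ∏ p ∈ (y + j).primeFactors, p ≤ R)).card : ℝ) ≤
        C * ((N + K : ℕ) : ℝ) ^ η * ((R : ℝ) ^ η * R) := by
    intro j hj
    rw [Finset.mem_range] at hj
    refine le_trans ?_ (hC R (N + K))
    have : ((Icc 1 N).filter (fun y => ∏ p ∈ (y + j).primeFactors, p ≤ R)).card ≤
        ((Icc 1 (N + K)).filter (fun n => ∏ p ∈ n.primeFactors, p ≤ R)).card := by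
      apply Finset.card_le_card_of_injOn (fun y => y + j)
      · intro y hy
        simp only [coe_filter, mem_Icc, Set.mem_ofPred_eq] at hy ⊢
        exact ⟨by omega, hy.2⟩
      · intro a _ b _ hab
        simpa using hab
    exact_mod_cast this
  have hRle : (R : ℝ) ≤ K.factorial * t := by
    rw [hR]; push_cast
    exact mul_le_mul_of_nonneg_left (Nat.floor_le ht0) (by positivity)
  have hNK : ((N + K : ℕ) : ℝ) ≤ (K + 1) * N := by
    push_cast
    nlinarith [(Nat.cast_nonneg K : (0 : ℝ) ≤ K)]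
  have hfinal : C * ((N + K : ℕ) : ℝ) ^ η * ((R : ℝ) ^ η * R) ≤
      (C * ((K : ℝ) + 1) ^ η * ((K.factorial : ℝ) ^ η * K.factorial)) * (N : ℝ) ^ eps := by
    have a1 : ((N + K : ℕ) : ℝ) ^ η ≤ ((K : ℝ) + 1) ^ η * (N : ℝ) ^ η := by
      rw [← Real.mul_rpow (by positivity) (by positivity)]
      exact Real.rpow_le_rpow (by positivity) hNK hη0.le
    have a2 : (R : ℝ) ^ η ≤ (K.factorial : ℝ) ^ η * t ^ η := by
      rw [← Real.mul_rpow (by positivity) ht0]
      exact Real.rpow_le_rpow (by positivity) hRle hη0.le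
    have a3 : (N : ℝ) ^ η * (t ^ η * t) ≤ (N : ℝ) ^ eps := by
      have b1 : t ^ η * t = (N : ℝ) ^ ((1 + η) / (K + 1)) := by
        rw [ht, ← Real.rpow_mul (by positivity), ← Real.rpow_add (by positivity)]
        congr 1
        field_simp
        ring
      rw [b1, ← Real.rpow_add (by positivity)]
      apply Real.rpow_le_rpow_of_exponent_le hN1
      have b2 : (1 + η) / (K + 1) ≤ η := by
        rw [div_le_iff₀ (by positivity)]
        have b3 : (1 + η) < K * η := by
          rwa [div_lt_iff₀ hη0] at hK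
        nlinarith
      have : eps = η + η := by rw [hη]; ring
      rw [this]
      linarith
    calc C * ((N + K : ℕ) : ℝ) ^ η * ((R : ℝ) ^ η * R)
        ≤ C * (((K : ℝ) + 1) ^ η * (N : ℝ) ^ η) *
          (((K.factorial : ℝ) ^ η * t ^ η) * (K.factorial * t)) := by
          apply mul_le_mul
          · exact mul_le_mul_of_nonneg_left a1 hC0
          · exact mul_le_mul a2 hRle (by positivity) (by positivity)
          · positivity
          · positivity
      _ = (C * ((K : ℝ) + 1) ^ η * ((K.factorial : ℝ) ^ η * K.factorial)) *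
          ((N : ℝ) ^ η * (t ^ η * t)) := by ring
      _ ≤ _ := mul_le_mul_of_nonneg_left a3 (by positivity)
  calc _ ≤ (((range (K + 1)).biUnion (fun j => (Icc 1 N).filter
        (fun y => ∏ p ∈ (y + j).primeFactors, p ≤ R))).card : ℝ) := by
        exact_mod_cast Finset.card_le_card hsub
    _ ≤ ((∑ j ∈ range (K + 1), ((Icc 1 N).filter
        (fun y => ∏ p ∈ (y + j).primeFactors, p ≤ R)).card : ℕ) : ℝ) := by
        exact_mod_cast Finset.card_biUnion_le
    _ = ∑ j ∈ range (K + 1), (((Icc 1 N).filter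
        (fun y => ∏ p ∈ (y + j).primeFactors, p ≤ R)).card : ℝ) := by push_cast; rfl
    _ ≤ ∑ j ∈ range (K + 1), C * ((N + K : ℕ) : ℝ) ^ η * ((R : ℝ) ^ η * R) :=
        Finset.sum_le_sum hcard
    _ = (K + 1 : ℝ) * (C * ((N + K : ℕ) : ℝ) ^ η * ((R : ℝ) ^ η * R)) := by
        rw [Finset.sum_const, Finset.card_range, nsmul_eq_mul]
        push_cast; ring
    _ ≤ (K + 1 : ℝ) * ((C * ((K : ℝ) + 1) ^ η * ((K.factorial : ℝ) ^ η * K.factorial)) *
          (N : ℝ) ^ eps) := mul_le_mul_of_nonneg_left hfinal (by positivity)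
    _ = _ := by ring

/-- The same bound for the cardinality of a set. -/
theorem count_ncard (eps : ℝ) (h : 0 < eps) : ∃ K : ℕ, ∃ C : ℝ, ∀ N : ℕ,
    (({y : ℕ | 1 ≤ y ∧ y ≤ N ∧ ∃ x, 1 ≤ x ∧ x < y ∧ ∀ j, j ≤ K →
      ∀ p : ℕ, p.Prime → (p ∣ x + j ↔ p ∣ y + j)}.ncard : ℕ) : ℝ) ≤ C * (N : ℝ) ^ eps := by
  classical
  obtain ⟨K, C, hC⟩ := count eps h
  refine ⟨K, C, fun N => ?_⟩
  refine le_trans (le_of_eq ?_) (hC N)
  congr 1
  rw [← Set.ncard_coe_finset]
  congr 1
  ext y
  simp only [coe_filter, mem_Icc, Set.mem_ofPred_eq, and_assoc]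

end Pool.Agent.SqCount
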