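import Mathlib

namespace Pool.Agent.SqDef

/-- extend an environment by a new variable `0` -/
def cons (a : ℕ) (v : ℕ → ℕ) : ℕ → ℕ
  | 0 => a
  | n + 1 => v n

@[simp] theorem cons_zero (a : ℕ) (v : ℕ → ℕ) : cons a v 0 = a := rfl
@[simp] theorem cons_succ (a : ℕ) (v : ℕ → ℕ) (n : ℕ) : cons a v (n + 1) = v n := rfl

/-- A family of relations on positive integers (given on environments) closed under the
first order operations. Only the values on positive environments matter. -/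
structure PClone where
  mem : ((ℕ → ℕ) → Prop) → Prop
  congr : ∀ {P Q : (ℕ → ℕ) → Prop}, mem P → (∀ v, (∀ i, 0 < v i) → (P v ↔ Q v)) → mem Q
  not : ∀ {P : (ℕ → ℕ) → Prop}, mem P → mem (fun v => ¬ P v)
  and : ∀ {P Q : (ℕ → ℕ) → Prop}, mem P → mem Q → mem (fun v => P v ∧ Q v)
  exc : ∀ {P : (ℕ → ℕ) → Prop}, mem P → mem (fun v => ∃ a, 0 < a ∧ P (cons a v))
  ren : ∀ {P : (ℕ → ℕ) → Prop} (σ : ℕ → ℕ), mem P → mem (fun v => P (fun n => v (σ n)))
  eq01 : mem (fun v => v 0 = v 1)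

namespace PClone

variable (C : PClone)

theorem ex {P : ℕ → (ℕ → ℕ) → Prop} (h : C.mem (fun w => P (w 0) (fun n => w (n + 1)))) :
    C.mem (fun v => ∃ a, 0 < a ∧ P a v) := C.exc h

theorem all {P : ℕ → (ℕ → ℕ) → Prop} (h : C.mem (fun w => P (w 0) (fun n => w (n + 1)))) :
    C.mem (fun v => ∀ a, 0 < a → P a v) := by
  refine C.congr (C.not (C.ex (P := fun a v => ¬ P a v) (C.not h))) ?_
  intro v _
  push Not
  rfl

theorem or {P Q : (ℕ → ℕ) → Prop} (hP : C.mem P) (hQ : C.mem Q) : C.mem (fun v => P v ∨ Q v) := by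
  refine C.congr (C.not (C.and (C.not hP) (C.not hQ))) ?_
  intro v _; tauto

theorem imp {P Q : (ℕ → ℕ) → Prop} (hP : C.mem P) (hQ : C.mem Q) : C.mem (fun v => P v → Q v) := by
  refine C.congr (C.not (C.and hP (C.not hQ))) ?_
  intro v _; tauto

theorem iff {P Q : (ℕ → ℕ) → Prop} (hP : C.mem P) (hQ : C.mem Q) : C.mem (fun v => P v ↔ Q v) := by
  refine C.congr (C.and (C.imp hP hQ) (C.imp hQ hP)) ?_
  intro v _; tauto

theorem r1 {R : ℕ → Prop} (h : C.mem (fun v => R (v 0))) (i : ℕ) : C.mem (fun v => R (v i)) :=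
  C.ren (fun _ => i) h

theorem r2 {R : ℕ → ℕ → Prop} (h : C.mem (fun v => R (v 0) (v 1))) (i j : ℕ) :
    C.mem (fun v => R (v i) (v j)) :=
  C.ren (fun n => if n = 0 then i else j) h

theorem r3 {R : ℕ → ℕ → ℕ → Prop} (h : C.mem (fun v => R (v 0) (v 1) (v 2))) (i j k : ℕ) :
    C.mem (fun v => R (v i) (v j) (v k)) :=
  C.ren (fun n => if n = 0 then i else if n = 1 then j else k) h

theorem r4 {R : ℕ → ℕ → ℕ → ℕ → Prop} (h : C.mem (fun v => R (v 0) (v 1) (v 2) (v 3)))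
    (i j k l : ℕ) : C.mem (fun v => R (v i) (v j) (v k) (v l)) :=
  C.ren (fun n => if n = 0 then i else if n = 1 then j else if n = 2 then k else l) h

theorem eq (i j : ℕ) : C.mem (fun v => v i = v j) := C.r2 (R := fun a b => a = b) C.eq01 i j

theorem tru : C.mem (fun _ => True) := C.congr (C.eq 0 0) (fun _ _ => by simp)

end PClone

end Pool.Agent.SqDef
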