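import Pool.Agent.Sq21_Count.Clone

namespace Pool.Agent.SqDef

/-! ### Arithmetic lemmas -/

/-- congruence through a common negative inverse -/
def Cong (m u v : ℕ) : Prop :=
  ∃ t, 0 < t ∧ Nat.Coprime t u ∧ Nat.Coprime t v ∧ m ∣ t.lcm u + 1 ∧ m ∣ t.lcm v + 1

theorem modEq_of_cong {m u v : ℕ} (h : Cong m u v) : u ≡ v [MOD m] := by
  obtain ⟨t, _, h1, h2, h3, h4⟩ := h
  rw [h1.lcm_eq_mul] at h3
  rw [h2.lcm_eq_mul] at h4
  have hc : Nat.Coprime m t := by
    have hd : m.gcd t ∣ 1 := by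
      have ha : m.gcd t ∣ t * u + 1 := (Nat.gcd_dvd_left m t).trans h3
      have hb : m.gcd t ∣ t * u := (Nat.gcd_dvd_right m t).trans (dvd_mul_right t u)
      exact (Nat.dvd_add_right hb).1 ha
    exact Nat.dvd_one.1 hd
  have h5 : t * u + 1 ≡ t * v + 1 [MOD m] :=
    ((Nat.modEq_zero_iff_dvd).2 h3).trans ((Nat.modEq_zero_iff_dvd).2 h4).symm
  have h6 : t * u ≡ t * v [MOD m] := Nat.ModEq.add_right_cancel' 1 h5
  exact Nat.ModEq.cancel_left_of_coprime hc h6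

theorem cong_of_modEq {m u v : ℕ} (hm : 0 < m) (_hu : 0 < u) (_hv : 0 < v)
    (h1 : Nat.Coprime m u) (h2 : Nat.Coprime m v) (h : u ≡ v [MOD m]) : Cong m u v := by
  have hc : Nat.Coprime m (u * v) := h1.mul_right h2
  obtain ⟨s, _, hs⟩ := Nat.exists_mul_mod_eq_of_coprime (m - 1) h1.symm hm.ne'
  have hs' : u * s ≡ m - 1 [MOD m] := hs
  obtain ⟨t, ht1, ht2⟩ := Nat.chineseRemainder hc s (u * v + 1)
  have htuv : Nat.Coprime t (u * v) := by
    have h3 : t.gcd (u * v) = (u * v + 1).gcd (u * v) := ht2.gcd_eq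
    rw [Nat.coprime_iff_gcd_eq_one, h3]
    have : Nat.Coprime (u * v + 1) (u * v) := by
      have := (Nat.coprime_self_add_right (m := u * v) (n := 1)).2 (Nat.coprime_one_right _)
      exact this.symm
    exact this
  have htu : Nat.Coprime t u := htuv.coprime_mul_right_right
  have htv : Nat.Coprime t v := htuv.coprime_mul_left_right
  -- replace t by a positive one
  have e1 : t * u + 1 ≡ 0 [MOD m] := by
    have e2 : t * u + 1 ≡ s * u + 1 [MOD m] := (ht1.mul_right u).add_right 1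
    have e3 : s * u + 1 ≡ (m - 1) + 1 [MOD m] := by
      rw [mul_comm s u]; exact hs'.add_right 1
    have e4 : (m - 1) + 1 = m := by omega
    rw [e4] at e3
    exact (e2.trans e3).trans (by simp [Nat.ModEq])
  have e2 : t * v + 1 ≡ 0 [MOD m] := ((h.symm.mul_left t).add_right 1).trans e1
  rcases Nat.eq_zero_or_pos t with ht | ht
  · -- t = 0 : then u = v = 1 and m = 1
    subst ht
    have hu1 : u = 1 := by simpa using htu
    have hv1 : v = 1 := by simpa using htv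
    have hm1 : m = 1 := by
      rw [zero_mul, zero_add] at e1
      exact Nat.dvd_one.1 ((Nat.modEq_zero_iff_dvd).1 e1)
    refine ⟨1, one_pos, ?_, ?_, ?_, ?_⟩
    · exact Nat.coprime_one_left _
    · exact Nat.coprime_one_left _
    · rw [hm1]; exact one_dvd _
    · rw [hm1]; exact one_dvd _
  · refine ⟨t, ht, htu, htv, ?_, ?_⟩
    · rw [htu.lcm_eq_mul]; exact (Nat.modEq_zero_iff_dvd).1 e1
    · rw [htv.lcm_eq_mul]; exact (Nat.modEq_zero_iff_dvd).1 e2

/-- definition of multiplication from successor and divisibility (J. Robinson) -/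
def MulF (x y z : ℕ) : Prop :=
  ∀ m, 0 < m → Nat.Coprime m x → Nat.Coprime m y → Nat.Coprime m z →
    ∃ w, 0 < w ∧ Nat.Coprime x w ∧ Cong m w y ∧ ∃ l, 0 < l ∧ x.lcm w = l ∧ Cong m l z

theorem mulF_iff {x y z : ℕ} (hx : 0 < x) (hy : 0 < y) (hz : 0 < z) : MulF x y z ↔ x * y = z := by
  constructor
  · intro h
    obtain ⟨p, hp1, hp⟩ := Nat.exists_infinite_primes (x * y + z + x + y + 1)
    have hcop : ∀ a, 0 < a → a < p → Nat.Coprime p a := fun a ha hap =>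
      (Nat.Prime.coprime_iff_not_dvd hp).2 (fun hd => absurd (Nat.le_of_dvd ha hd) (by omega))
    obtain ⟨w, _, hxw, hwy, l, _, hl, hlz⟩ := h p hp.pos (hcop x hx (by omega))
      (hcop y hy (by omega)) (hcop z hz (by omega))
    have h1 := modEq_of_cong hwy
    have h2 := modEq_of_cong hlz
    rw [hxw.lcm_eq_mul] at hl
    rw [← hl] at h2
    have h3 : x * y ≡ z [MOD p] := ((h1.mul_left x).symm).trans h2
    exact Nat.ModEq.eq_of_lt_of_lt h3 (by omega) (by omega)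
  · intro h
    subst h
    intro m hm h1 h2 h3
    obtain ⟨w, hw1, hw2⟩ := Nat.chineseRemainder h1 y (x + 1)
    have hwm : w + m * x ≡ y [MOD m] := by
      have : w + m * x ≡ w [MOD m] := by simp [Nat.ModEq]
      exact this.trans hw1
    have hwx : w + m * x ≡ 1 [MOD x] := by
      have e1 : w + m * x ≡ w [MOD x] := by simp [Nat.ModEq]
      have e2 : x + 1 ≡ 1 [MOD x] := by simp [Nat.ModEq]
      exact (e1.trans hw2).trans e2
    have hcx : Nat.Coprime x (w + m * x) := by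
      have := hwx.gcd_eq
      rw [Nat.gcd_one_left] at this
      rw [Nat.coprime_comm]
      exact this
    have hcm : Nat.Coprime m (w + m * x) := by
      have := hwm.gcd_eq
      rw [Nat.coprime_comm, Nat.coprime_iff_gcd_eq_one, this]
      exact h2.symm
    have hw0 : 0 < w + m * x := by positivity
    refine ⟨w + m * x, hw0, hcx, cong_of_modEq hm hw0 hy hcm h2 hwm, x * (w + m * x),
      by positivity, hcx.lcm_eq_mul, ?_⟩
    exact cong_of_modEq hm (by positivity) hz (h1.mul_right hcm) h3 (hwm.mul_left x)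

theorem add_iff {a b c : ℕ} (hc : 0 < c) :
    a + b = c ↔ (a * c + 1) * (b * c + 1) = c * c * (a * b + 1) + 1 := by
  constructor
  · intro h; subst h; ring
  · intro h
    have h1 : (a + b) * c = c * c := by nlinarith
    exact Nat.eq_of_mul_eq_mul_right hc h1

namespace PClone

variable (C : PClone)

section dvd

variable (hd : C.mem (fun v => v 0 ∣ v 1))

include hd

theorem one_mem : C.mem (fun v => v 0 = 1) := by
  refine C.congr (P := fun v => ∀ a, 0 < a → v 0 ∣ a) (C.all (C.r2 hd 1 0)) ?_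
  intro v hv
  constructor
  · intro h; exact Nat.dvd_one.1 (h 1 one_pos)
  · intro h a _; rw [h]; exact one_dvd a

theorem cop_mem : C.mem (fun v => Nat.Coprime (v 0) (v 1)) := by
  refine C.congr (P := fun v => ∀ a, 0 < a → (a ∣ v 0 ∧ a ∣ v 1 → a = 1))
    (C.all (C.imp (C.and (C.r2 hd 0 1) (C.r2 hd 0 2)) (C.r1 (R := fun a => a = 1)
      (C.one_mem hd) 0))) ?_
  intro v hv
  constructor
  · intro h
    exact h _ (Nat.gcd_pos_of_pos_left _ (hv 0)) ⟨Nat.gcd_dvd_left _ _, Nat.gcd_dvd_right _ _⟩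
  · intro h a _ ha
    exact Nat.eq_one_of_dvd_coprimes h ha.1 ha.2

theorem lcm_mem : C.mem (fun v => Nat.lcm (v 0) (v 1) = v 2) := by
  refine C.congr (P := fun v => (v 0 ∣ v 2 ∧ v 1 ∣ v 2) ∧
      ∀ a, 0 < a → (v 0 ∣ a ∧ v 1 ∣ a → v 2 ∣ a))
    (C.and (C.and (C.r2 hd 0 2) (C.r2 hd 1 2))
      (C.all (C.imp (C.and (C.r2 hd 1 0) (C.r2 hd 2 0)) (C.r2 hd 3 0)))) ?_
  intro v hv
  constructor
  · rintro ⟨⟨h1, h2⟩, h3⟩
    apply Nat.dvd_antisymm
    · exact Nat.lcm_dvd h1 h2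
    · exact h3 _ (Nat.lcm_pos (hv 0) (hv 1)) ⟨Nat.dvd_lcm_left _ _, Nat.dvd_lcm_right _ _⟩
  · intro h
    rw [← h]
    exact ⟨⟨Nat.dvd_lcm_left _ _, Nat.dvd_lcm_right _ _⟩, fun a _ ha => Nat.lcm_dvd ha.1 ha.2⟩

variable (hs : C.mem (fun v => v 1 = v 0 + 1))

include hs

theorem dvdlcm_mem : C.mem (fun v => v 0 ∣ Nat.lcm (v 1) (v 2) + 1) := by
  refine C.congr (P := fun v => ∃ a, 0 < a ∧ (Nat.lcm (v 1) (v 2) = a ∧
      ∃ b, 0 < b ∧ (b = a + 1 ∧ v 0 ∣ b)))
    (C.ex (C.and (C.r3 (R := fun a b c => Nat.lcm a b = c) (C.lcm_mem hd) 2 3 0)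
      (C.ex (C.and (C.r2 (R := fun a b => b = a + 1) hs 1 0) (C.r2 hd 2 0))))) ?_
  intro v hv
  constructor
  · rintro ⟨a, _, ha, b, _, hb, h⟩
    rw [ha, ← hb]; exact h
  · intro h
    exact ⟨_, Nat.lcm_pos (hv 1) (hv 2), rfl, _, Nat.succ_pos _, rfl, h⟩

theorem cong_mem : C.mem (fun v => Cong (v 0) (v 1) (v 2)) := by
  refine C.ex (P := fun t v => Nat.Coprime t (v 1) ∧ Nat.Coprime t (v 2) ∧
      v 0 ∣ t.lcm (v 1) + 1 ∧ v 0 ∣ t.lcm (v 2) + 1) ?_
  exact C.and (C.r2 (C.cop_mem hd) 0 2) (C.and (C.r2 (C.cop_mem hd) 0 3)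
    (C.and (C.r3 (R := fun a b c => a ∣ Nat.lcm b c + 1) (C.dvdlcm_mem hd hs) 1 0 2)
      (C.r3 (R := fun a b c => a ∣ Nat.lcm b c + 1) (C.dvdlcm_mem hd hs) 1 0 3)))

theorem mul_mem : C.mem (fun v => v 0 * v 1 = v 2) := by
  refine C.congr (P := fun v => MulF (v 0) (v 1) (v 2)) ?_
    (fun v hv => mulF_iff (hv 0) (hv 1) (hv 2))
  refine C.all (P := fun m v => Nat.Coprime m (v 0) → Nat.Coprime m (v 1) → Nat.Coprime m (v 2) →
    ∃ w, 0 < w ∧ Nat.Coprime (v 0) w ∧ Cong m w (v 1) ∧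
      ∃ l, 0 < l ∧ (v 0).lcm w = l ∧ Cong m l (v 2)) ?_
  refine C.imp (C.r2 (C.cop_mem hd) 0 1) (C.imp (C.r2 (C.cop_mem hd) 0 2)
    (C.imp (C.r2 (C.cop_mem hd) 0 3) ?_))
  refine C.ex (C.and (C.r2 (C.cop_mem hd) 2 0) (C.and (C.r3 (C.cong_mem hd hs) 1 0 3) ?_))
  exact C.ex (C.and (C.r3 (R := fun a b c => Nat.lcm a b = c) (C.lcm_mem hd) 3 1 0)
    (C.r3 (C.cong_mem hd hs) 2 0 5))

theorem add_mem : C.mem (fun v => v 0 + v 1 = v 2) := by
  have hm := C.mul_mem hd hs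
  have hs' : ∀ i j, C.mem (fun v => v j = v i + 1) := fun i j =>
    C.r2 (R := fun a b => b = a + 1) hs i j
  have hm' : ∀ i j k, C.mem (fun v => v i * v j = v k) := fun i j k =>
    C.r3 (R := fun a b c => a * b = c) hm i j k
  refine C.congr (P := fun v =>
    ∃ p, 0 < p ∧ (v 0 * v 2 = p ∧
    ∃ p', 0 < p' ∧ (p' = p + 1 ∧
    ∃ q, 0 < q ∧ (v 1 * v 2 = q ∧
    ∃ q', 0 < q' ∧ (q' = q + 1 ∧
    ∃ r, 0 < r ∧ (v 0 * v 1 = r ∧
    ∃ r', 0 < r' ∧ (r' = r + 1 ∧
    ∃ s, 0 < s ∧ (v 2 * v 2 = s ∧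
    ∃ t, 0 < t ∧ (s * r' = t ∧
    ∃ t', 0 < t' ∧ (t' = t + 1 ∧ p' * q' = t')))))))))) ?_ ?_
  · refine C.ex (C.and (hm' 1 3 0) ?_)
    refine C.ex (C.and (hs' 1 0) ?_)
    refine C.ex (C.and (hm' 4 5 0) ?_)
    refine C.ex (C.and (hs' 1 0) ?_)
    refine C.ex (C.and (hm' 5 6 0) ?_)
    refine C.ex (C.and (hs' 1 0) ?_)
    refine C.ex (C.and (hm' 9 9 0) ?_)
    refine C.ex (C.and (hm' 1 2 0) ?_)
    refine C.ex (C.and (hs' 1 0) ?_)
    exact hm' 7 5 0
  · intro v hv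
    rw [add_iff (hv 2)]
    constructor
    · rintro ⟨p, _, hp, p', _, hp', q, _, hq, q', _, hq', r, _, hr, r', _, hr', s, _, hs1, t, _,
        ht, t', _, ht', h⟩
      rw [hp, ← hp', hq, ← hq', hs1, hr, ← hr', ht, ← ht', h]
    · intro h
      have h0 := hv 0
      have h1 := hv 1
      have h2 := hv 2
      exact ⟨_, by positivity, rfl, _, by positivity, rfl, _, by positivity, rfl, _,
        by positivity, rfl, _, by positivity, rfl, _, by positivity, rfl, _, by positivity, rfl,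
        _, by positivity, rfl, _, by positivity, rfl, h⟩

theorem lt_mem : C.mem (fun v => v 0 < v 1) := by
  refine C.congr (P := fun v => ∃ a, 0 < a ∧ v 0 + a = v 1)
    (C.ex (C.r3 (R := fun a b c => a + b = c) (C.add_mem hd hs) 1 0 2)) ?_
  intro v hv
  constructor
  · rintro ⟨a, ha, h⟩; omega
  · intro h; exact ⟨v 1 - v 0, by omega, by omega⟩

end dvd

end PClone

end Pool.Agent.SqDef
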